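import Pool.Agent.Results.MP_e426f4_ag.ProductsOfConics
import Pool.Agent.V11312.PW.Digits

/-!
# Brauer-Manin obstruction for ALL fibrations in products of conics with constant term in random residue classes

For the varieties `W_k : yᵢ² - aᵢ zᵢ² = bᵢ t (f(t) + k) ≠ 0` of `ProductsOfConics`: let `m_0 | m_1 | m_2 | …` be moduli,
`m_j` the product of the first `j` of arbitrary bases `g_i + 2 ≥ 2` (for example `m_j = q ^ j`, or `m_j = (j + 1)!`), and let `n_j`
be the residue class modulo `m_j` with independent uniform digits `ω_0, …, ω_(j-1)` (that is, of a random `q`-adic, or profinite,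
integer). For almost all `ω`, for every finite set `T` of primes with the small and the bad ones, every precision `N` and every
`B`, for all large `j` ALL integers `k ≡ n_j (mod m_j)` with `|k| ≤ m_j (log m_j) ^ B` are such that the families of points of
`W_k(ℚ_p)`, `p` in `T`, and of a real point which are orthogonal to the algebras `(aᵢ, t)` can be approximated by rational
points of `W_k`, to the precision `N`.
-/

set_option autoImplicit false

namespace Pool.Agent.Results.MP_e426f4_ag.ShiftsInResidueClasses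

open Finset Polynomial Filter Topology MeasureTheory
open Pool.Agent.Results.MP_e426f4_ag.ProductsOfConics (WB)
open Pool.Agent.V11312.PD

/-- **All shifts in random residue classes.** For almost all digits `ω`: for all `T`, `N`, `B` and all large `j`, weak
approximation (of level `N` at the primes of `T`, for the points orthogonal to the algebras `(aᵢ, t)`) holds for ALL `W_k` with
`k ≡ n_j (mod m_j)`, `|k| ≤ m_j (log m_j) ^ B`. Examples: `m_j = q ^ j` and `m_j = (j + 1)!`. -/
theorem result :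
    (∀ (r : ℕ) (f : ℤ[X]) (_ : 1 ≤ f.natDegree) (a b : Fin r → ℤ) (_ : ∀ i, a i ≠ 0) (_ : ∀ i, b i ≠ 0) (g : ℕ → ℕ),
      ∀ᵐ ω ∂(law g), ∀ T : Finset Nat.Primes,
        (∀ p : Nat.Primes, ((p : ℕ) ≤ 2 * f.natDegree ∨ ((p : ℕ) : ℤ) ∣ f.leadingCoeff * ∏ i, (a i * b i)) → p ∈ T) →
        ∀ N B : ℕ, ∃ j₀ : ℕ, ∀ j : ℕ, j₀ ≤ j → ∀ k : ℤ, InClass g ω B j k → WB f a b T N k) ∧
    (∀ q : ℕ, 2 ≤ q → ∀ j, modulus (fun _ => q - 2) j = q ^ j) ∧
    (∀ j : ℕ, modulus (fun i => i) j = (j + 1).factorial) := by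
  classical
  refine ⟨fun r f hf a b ha hb g => ?_, modulus_const, modulus_id⟩
  have hall := ae_family g (ι := {T : Finset Nat.Primes // ∀ p : Nat.Primes, ((p : ℕ) ≤ 2 * f.natDegree ∨
      ((p : ℕ) : ℤ) ∣ f.leadingCoeff * ∏ i, (a i * b i)) → p ∈ T} × ℕ) (fun i k => WB f a b i.1.1 i.2 k) (fun i P => by
    obtain ⟨X₀, hX₀⟩ := ProductsOfConics.result r f hf a b ha hb i.1.1 i.1.2 i.2 P
    refine ⟨X₀, fun X hX => ?_⟩
    have e : {k : ℤ | |k| ≤ (X : ℤ) ∧ ¬ WB f a b i.1.1 i.2 k} =
        (((Icc (-(X : ℤ)) X).filter (fun k => ¬ WB f a b i.1.1 i.2 k) : Finset ℤ) : Set ℤ) := by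
      ext k
      simp only [Set.mem_ofPred_eq, coe_filter, mem_Icc, abs_le]
    rw [e, Set.ncard_coe_finset]
    convert hX₀ X hX)
  filter_upwards [hall] with ω hω T hT N B
  exact hω (⟨T, hT⟩, N) B

end Pool.Agent.Results.MP_e426f4_ag.ShiftsInResidueClasses
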