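import Mathlib
import Pool.Agent.Results.MP_e426f4_ag.ProductsOfConics
import Pool.Agent.V11109.DEC.Zero

/-!
# Brauer-Manin obstruction for almost all fibrations `yᵢ² - aᵢ zᵢ² = bᵢ t (f(t) + k)`, `k` in a sparse sequence

Let `p > 1` be a real number. There is a set `A₀` of real numbers of Hausdorff dimension smaller than
one such that the following holds for all `α > 0` outside `A₀`, with `t_j = ⌊α j ^ p⌋` (there are about
`X ^ (1 / p)` terms up to `X`), all nonzero integers `e`, all integral polynomials `f` of degree at least one,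
all `r` and all nonzero integers `aᵢ`, `bᵢ`, `i < r`. The smooth proper models `X_k` of the varieties
`W_k : yᵢ² - aᵢ zᵢ² = bᵢ t (f(t) + k) ≠ 0` are rationally connected, of dimension `r + 1`; if `deg f` is even then their
Brauer groups contain the algebras `(aᵢ, t)`. For all but `O(n / (log n) ^ U)` of the `j ≤ n`, `k = e t_j`, all families
of points of `W_k(ℚ_p)`, `p` in a finite set `T` with the small and the bad primes, and of a real point can be
approximated by rational points of `W_k`, if the sums of the invariants of the `(aᵢ, t)` at these points are `0` or if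
`d` is odd.
-/

set_option autoImplicit false

namespace Pool.Agent.Results.MP_e426f4_ag.SparseShifts

open Finset Polynomial

open Pool.Agent.V11109.DEC (term Rare)
open Pool.Agent.Results.MP_e426f4_ag.ProductsOfConics (OnW InvSumZero WB)

/-- weak approximation of level `N` at the primes of `T` fails for the points of `W_k` which are orthogonal
to the algebras `(aᵢ, t)` -/
def Fails {r : ℕ} (f : ℤ[X]) (a b : Fin r → ℤ) (T : Finset Nat.Primes) (N : ℕ) (k : ℤ) : Prop :=
  ¬ WB f a b T N k

/-- the data -/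
def Ind : Type := Σ r : ℕ, ℤ[X] × (Fin r → ℤ) × (Fin r → ℤ) × Finset Nat.Primes × ℕ

lemma pow_form {X U : ℕ} : (X : ℝ) / Real.log X ^ U = X * (Real.log X) ^ (-(U : ℝ)) := by
  rw [Real.rpow_neg (Real.log_natCast_nonneg _), Real.rpow_natCast, div_eq_mul_inv]

open Classical in
lemma convert (P : ℤ → Prop) (U : ℕ) (h : ∃ X₀ : ℕ, ∀ X : ℕ, X₀ ≤ X →
      (#{k ∈ Icc (-(X : ℤ)) X | P k} : ℝ) ≤ X / Real.log X ^ U) :
    ∃ C : ℝ, ∀ X : ℕ, 3 ≤ X →
      ({d : ℤ | d.natAbs ≤ X ∧ P d}.ncard : ℝ) ≤ C * X * (Real.log X) ^ (-(U : ℝ)) := by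
  refine Pool.Agent.V11109.DEC.extend P U (Nat.cast_nonneg U) ?_
  obtain ⟨X₀, hX₀⟩ := h
  refine ⟨X₀, fun X hX => ?_⟩
  rw [Pool.Agent.V11109.DEC.ncard_eq_card P X, ← pow_form]
  exact hX₀ X hX

/-- **Main result.** For every real `p > 1` there is a set `A₀` of real numbers of Hausdorff dimension
smaller than one such that, for all `f` of degree at least one, all nonzero `aᵢ`, `bᵢ`, `i < r`, all finite sets `T`
of primes which contain the primes up to `2 deg f` and those which divide the leading coefficient of `f` or one of the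
`aᵢ`, `bᵢ`, and all `N`, `U`, the integers `k` for which weak approximation fails for the points of `W_k` orthogonal to
the algebras `(aᵢ, t)` are rare along the sequences `e t_j`, `α > 0` outside `A₀`, with the exponent `U`. -/
theorem result (p : ℝ) (hp : 1 < p) : ∃ A₀ : Set ℝ, dimH A₀ < 1 ∧
    ∀ (r : ℕ) (f : ℤ[X]) (a b : Fin r → ℤ), 1 ≤ f.natDegree → (∀ i, a i ≠ 0) → (∀ i, b i ≠ 0) →
      ∀ T : Finset Nat.Primes, (∀ q : Nat.Primes, ((q : ℕ) ≤ 2 * f.natDegree ∨
        ((q : ℕ) : ℤ) ∣ f.leadingCoeff * ∏ i, (a i * b i)) → q ∈ T) →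
      ∀ N U : ℕ, Rare p A₀ U (Fails f a b T N) := by
  classical
  have hcp := Pool.Agent.V11109.TWI.countable_poly
  have hInd : Countable Ind := by
    unfold Ind
    infer_instance
  obtain ⟨A₀, hA₀, -, h⟩ := Pool.Agent.V11109.DEC.rare p hp
    (fun v : Ind => Fails v.2.1 v.2.2.1 v.2.2.2.1 v.2.2.2.2.1 v.2.2.2.2.2)
  refine ⟨A₀, hA₀, fun r f a b hf ha hb T hT N U => ?_⟩
  obtain ⟨C, hC⟩ := convert (Fails f a b T N) U (by
    obtain ⟨X₀, hX₀⟩ := ProductsOfConics.result r f hf a b ha hb T hT N U
    refine ⟨X₀, fun X hX => le_trans (le_of_eq ?_) (hX₀ X hX)⟩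
    congr 2
    ext k
    rw [Finset.mem_filter, Finset.mem_filter]
    rfl)
  exact h ⟨r, f, a, b, T, N⟩ C U (Nat.cast_nonneg U) hC

end Pool.Agent.Results.MP_e426f4_ag.SparseShifts
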