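import Pool.Agent.Results.MP_e426f4_ag.ProductsOfConics
import Pool.Agent.V11285.W6

/-!
# Brauer-Manin obstruction for ALL fibrations in products of conics with constant term near `± α v_n`

For the varieties `W_k : yᵢ² - aᵢ zᵢ² = bᵢ t (f(t) + k) ≠ 0` of `ProductsOfConics` and a sequence `v_n` which grows at least
like `exp (n ^ δ)`, for example `v_n = b ^ n`: for almost all `α > 0`, for every finite set `T` of primes with the small and the
bad ones, every precision `N` and every `B`, for all large `n` ALL integers `k` with `| |k| - α v_n | ≤ (log v_n) ^ B` are such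
that the families of points of `W_k(ℚ_p)`, `p` in `T`, and of a real point which are orthogonal to the algebras `(aᵢ, t)` can be
approximated by rational points of `W_k`, to the precision `N`.
-/

set_option autoImplicit false

namespace Pool.Agent.Results.MP_e426f4_ag.WindowsOfShifts

open Finset Polynomial Filter Topology MeasureTheory
open Pool.Agent.Results.MP_e426f4_ag.ProductsOfConics (WB)

/-- `v_n` grows at least like `exp (n ^ δ)` for some `δ > 0` -/
def Fast (v : ℕ → ℝ) : Prop := ∃ δ : ℝ, 0 < δ ∧ ∀ᶠ n : ℕ in atTop, (n : ℝ) ^ δ ≤ Real.log (v n)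

/-- **All shifts in windows.** For almost all `α > 0`: for all `T`, `N`, `B` and all large `n`, weak approximation (of level
`N` at the primes of `T`, for the points orthogonal to the algebras `(aᵢ, t)`) holds for ALL `W_k` with
`| |k| - α v_n | ≤ (log v_n) ^ B`. Examples: `v_n = b ^ n`. -/
theorem result :
    (∀ (r : ℕ) (f : ℤ[X]) (_ : 1 ≤ f.natDegree) (a b : Fin r → ℤ) (_ : ∀ i, a i ≠ 0) (_ : ∀ i, b i ≠ 0)
      (v : ℕ → ℝ) (_ : ∀ n, 1 ≤ v n) (_ : Fast v),
      ∀ᵐ α : ℝ, 0 < α → ∀ T : Finset Nat.Primes,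
        (∀ p : Nat.Primes, ((p : ℕ) ≤ 2 * f.natDegree ∨ ((p : ℕ) : ℤ) ∣ f.leadingCoeff * ∏ i, (a i * b i)) → p ∈ T) →
        ∀ N B : ℕ, ∃ n₀ : ℕ, ∀ n : ℕ, n₀ ≤ n → ∀ k : ℤ, |(|(k : ℝ)|) - α * v n| ≤ Real.log (v n) ^ B →
          WB f a b T N k) ∧
    (∀ b : ℝ, 1 < b → Fast (fun n : ℕ => b ^ n)) := by
  classical
  refine ⟨fun r f hf a b ha hb v hv hfast => ?_, fun b hb => Pool.Agent.V11285.W4.fast_geom b hb⟩
  have hall : ∀ᵐ α : ℝ, ∀ (T : Finset Nat.Primes) (N B : ℕ), 0 < α →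
      (∀ p : Nat.Primes, ((p : ℕ) ≤ 2 * f.natDegree ∨ ((p : ℕ) : ℤ) ∣ f.leadingCoeff * ∏ i, (a i * b i)) → p ∈ T) →
      ∃ n₀ : ℕ, ∀ n : ℕ, n₀ ≤ n → ∀ k : ℤ, |(|(k : ℝ)|) - α * v n| ≤ Real.log (v n) ^ B → WB f a b T N k := by
    rw [ae_all_iff]
    intro T
    rw [ae_all_iff]
    intro N
    rw [ae_all_iff]
    intro B
    by_cases hT : ∀ p : Nat.Primes, ((p : ℕ) ≤ 2 * f.natDegree ∨ ((p : ℕ) : ℤ) ∣ f.leadingCoeff * ∏ i, (a i * b i)) →
        p ∈ T
    · have h1 := Pool.Agent.V11285.W6.ae_logZ (fun k => ¬ WB f a b T N k) (fun P => by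
        obtain ⟨X₀, hX₀⟩ := ProductsOfConics.result r f hf a b ha hb T hT N P
        refine ⟨X₀, fun X hX => ?_⟩
        have e : {k : ℤ | |k| ≤ (X : ℤ) ∧ ¬ WB f a b T N k} =
            (((Icc (-(X : ℤ)) X).filter (fun k => ¬ WB f a b T N k) : Finset ℤ) : Set ℤ) := by
          ext k
          simp only [Set.mem_ofPred_eq, coe_filter, mem_Icc, abs_le]
        rw [e, Set.ncard_coe_finset]
        convert hX₀ X hX) hv hfast B
      filter_upwards [h1] with α hα hα0 _
      obtain ⟨n₀, hn₀⟩ := hα hα0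
      exact ⟨n₀, fun n hn k hw => not_not.1 (hn₀ n hn k hw)⟩
    · exact Eventually.of_forall fun α _ h => absurd h hT
  filter_upwards [hall] with α hα hα0 T hT N B
  exact hα T N B hα0 hT

end Pool.Agent.Results.MP_e426f4_ag.WindowsOfShifts
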